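import Pool.Agent.K4H25.FH.Spec

/-!
Fractional Gaussian noise, 1/2 < H < 1: phi H n > 0 and the bound
(n+1) (phi n - phi (n+1)) <= 3 phi n.
-/

set_option autoImplicit false

namespace Pool.Agent.K4H61.FH

open Set Pool.Agent.K4H25.FH

/-- third difference from midpoint convexity of the derivative -/
theorem D3 {q q' : ℝ → ℝ} {a : ℝ} (hc : ContinuousOn q (Icc a (a + 3)))
    (hd : ∀ x ∈ Ioo a (a + 3), HasDerivAt q (q' x) x)
    (hm : ∀ x ∈ Ioo a (a + 1), 2 * q' (x + 1) ≤ q' x + q' (x + 2)) :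
    0 ≤ q (a + 3) - 3 * q (a + 2) + 3 * q (a + 1) - q a := by
  set g : ℝ → ℝ := fun y => q (y + 2) - 2 * q (y + 1) + q y with hg
  have hcg : ContinuousOn g (Icc a (a + 1)) := by
    have h2 : ContinuousOn (fun y : ℝ => q (y + 2)) (Icc a (a + 1)) :=
      hc.comp (by fun_prop) (fun y hy => ⟨by linarith [hy.1], by linarith [hy.2]⟩)
    have h1 : ContinuousOn (fun y : ℝ => q (y + 1)) (Icc a (a + 1)) :=
      hc.comp (by fun_prop) (fun y hy => ⟨by linarith [hy.1], by linarith [hy.2]⟩)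
    have h0 : ContinuousOn q (Icc a (a + 1)) :=
      hc.mono (fun y hy => ⟨hy.1, by linarith [hy.2]⟩)
    exact (h2.sub (h1.const_smul (2 : ℝ))).add h0
  have hdg : ∀ x ∈ Ioo a (a + 1), HasDerivAt g (q' (x + 2) - 2 * q' (x + 1) + q' x) x := by
    intro x hx
    have h2 : HasDerivAt (fun y : ℝ => q (y + 2)) (q' (x + 2)) x :=
      (hd (x + 2) ⟨by linarith [hx.1], by linarith [hx.2]⟩).comp_add_const x 2
    have h1 : HasDerivAt (fun y : ℝ => q (y + 1)) (q' (x + 1)) x :=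
      (hd (x + 1) ⟨by linarith [hx.1], by linarith [hx.2]⟩).comp_add_const x 1
    have h0 := hd x ⟨hx.1, by linarith [hx.2]⟩
    exact (h2.sub (h1.const_mul 2)).add h0
  have hmono : MonotoneOn g (Icc a (a + 1)) := by
    apply monotoneOn_of_deriv_nonneg (convex_Icc _ _) hcg
    · intro x hx
      rw [interior_Icc] at hx
      exact (hdg x hx).differentiableAt.differentiableWithinAt
    · intro x hx
      rw [interior_Icc] at hx
      rw [(hdg x hx).deriv]
      linarith [hm x hx]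
  have h := hmono (left_mem_Icc.2 (by linarith)) (right_mem_Icc.2 (by linarith))
    (by linarith : a ≤ a + 1)
  simp only [hg] at h
  have e1 : a + 1 + 2 = a + 3 := by ring
  have e2 : a + 1 + 1 = a + 2 := by ring
  rw [e1, e2] at h
  linarith

/-- strict form -/
theorem D3s {q q' : ℝ → ℝ} {a : ℝ} (hc : ContinuousOn q (Icc a (a + 3)))
    (hd : ∀ x ∈ Ioo a (a + 3), HasDerivAt q (q' x) x)
    (hm : ∀ x ∈ Ioo a (a + 1), 2 * q' (x + 1) < q' x + q' (x + 2)) :
    0 < q (a + 3) - 3 * q (a + 2) + 3 * q (a + 1) - q a := by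
  set g : ℝ → ℝ := fun y => q (y + 2) - 2 * q (y + 1) + q y with hg
  have hcg : ContinuousOn g (Icc a (a + 1)) := by
    have h2 : ContinuousOn (fun y : ℝ => q (y + 2)) (Icc a (a + 1)) :=
      hc.comp (by fun_prop) (fun y hy => ⟨by linarith [hy.1], by linarith [hy.2]⟩)
    have h1 : ContinuousOn (fun y : ℝ => q (y + 1)) (Icc a (a + 1)) :=
      hc.comp (by fun_prop) (fun y hy => ⟨by linarith [hy.1], by linarith [hy.2]⟩)
    have h0 : ContinuousOn q (Icc a (a + 1)) :=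
      hc.mono (fun y hy => ⟨hy.1, by linarith [hy.2]⟩)
    exact (h2.sub (h1.const_smul (2 : ℝ))).add h0
  have hdg : ∀ x ∈ Ioo a (a + 1), HasDerivAt g (q' (x + 2) - 2 * q' (x + 1) + q' x) x := by
    intro x hx
    have h2 : HasDerivAt (fun y : ℝ => q (y + 2)) (q' (x + 2)) x :=
      (hd (x + 2) ⟨by linarith [hx.1], by linarith [hx.2]⟩).comp_add_const x 2
    have h1 : HasDerivAt (fun y : ℝ => q (y + 1)) (q' (x + 1)) x :=
      (hd (x + 1) ⟨by linarith [hx.1], by linarith [hx.2]⟩).comp_add_const x 1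
    have h0 := hd x ⟨hx.1, by linarith [hx.2]⟩
    exact (h2.sub (h1.const_mul 2)).add h0
  have hmono : StrictMonoOn g (Icc a (a + 1)) := by
    apply strictMonoOn_of_deriv_pos (convex_Icc _ _) hcg
    intro x hx
    rw [interior_Icc] at hx
    rw [(hdg x hx).deriv]
    linarith [hm x hx]
  have h := hmono (left_mem_Icc.2 (by linarith)) (right_mem_Icc.2 (by linarith))
    (by linarith : a < a + 1)
  simp only [hg] at h
  have e1 : a + 1 + 2 = a + 3 := by ring
  have e2 : a + 1 + 1 = a + 2 := by ring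
  rw [e1, e2] at h
  linarith

/-- `phi` as a third difference -/
theorem phi_eq (H : ℝ) (m : ℕ) : phi H (m + 1) =
    -(((m : ℝ) + 3) ^ (2 * H) - 3 * ((m : ℝ) + 2) ^ (2 * H) + 3 * ((m : ℝ) + 1) ^ (2 * H)
      - (m : ℝ) ^ (2 * H)) / 2 := by
  have hm : (0 : ℝ) ≤ m := Nat.cast_nonneg m
  unfold phi gam
  push_cast
  have e1 : |(m : ℝ) + 1 + 1| = (m : ℝ) + 2 := by rw [abs_of_nonneg (by linarith)]; ring
  have e2 : |(m : ℝ) + 1| = (m : ℝ) + 1 := abs_of_nonneg (by linarith)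
  have e3 : |(m : ℝ) + 1 - 1| = (m : ℝ) := by rw [abs_of_nonneg (by linarith)]; ring
  have e4 : |(m : ℝ) + 1 + 1 + 1| = (m : ℝ) + 3 := by rw [abs_of_nonneg (by linarith)]; ring
  have e5 : |(m : ℝ) + 1 + 1 - 1| = (m : ℝ) + 1 := by rw [abs_of_nonneg (by linarith)]; ring
  rw [e1, e2, e3, e4, e5]
  ring

theorem phi_zero {H : ℝ} (h : 1 / 2 < H) : phi H 0 = 2 - 2 ^ (2 * H) / 2 := by
  unfold phi gam
  have h0 : (0 : ℝ) ^ (2 * H) = 0 := Real.zero_rpow (by linarith)
  norm_num [h0]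
  ring

theorem phi_pos {H : ℝ} (h : 1 / 2 < H) (h1 : H < 1) (n : ℕ) : 0 < phi H n := by
  rcases n with _ | m
  · rw [phi_zero h]
    have : (2 : ℝ) ^ (2 * H) < 2 ^ (2 : ℝ) := Real.rpow_lt_rpow_of_exponent_lt (by norm_num) (by linarith)
    have h4 : (2 : ℝ) ^ (2 : ℝ) = 4 := by
      rw [show (2 : ℝ) = ((2 : ℕ) : ℝ) by norm_num, Real.rpow_natCast]; norm_num
    rw [h4] at this
    linarith
  · rw [phi_eq]
    have hm : (0 : ℝ) ≤ m := Nat.cast_nonneg m
    have key := D3s (q := fun x : ℝ => -x ^ (2 * H)) (q' := fun x : ℝ => -((2 * H) * x ^ (2 * H - 1)))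
      (a := (m : ℝ)) ?_ ?_ ?_
    · linarith
    · apply Continuous.continuousOn
      exact (Real.continuous_rpow_const (by linarith)).neg
    · intro x hx
      have hx0 : x ≠ 0 := by linarith [hx.1]
      exact (Real.hasDerivAt_rpow_const (Or.inl hx0)).neg
    · intro x hx
      have hx0 : 0 < x := by linarith [hx.1]
      have hs := Real.strictConcaveOn_rpow (p := 2 * H - 1) (by linarith) (by linarith)
      have h2 := hs.2 (show x ∈ Ici (0 : ℝ) from hx0.le)
        (show x + 2 ∈ Ici (0 : ℝ) by simp only [mem_Ici]; linarith) (by intro hh; linarith)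
        (by norm_num : (0 : ℝ) < 1 / 2) (by norm_num : (0 : ℝ) < 1 / 2) (by norm_num)
      simp only [smul_eq_mul] at h2
      have e : 1 / 2 * x + 1 / 2 * (x + 2) = x + 1 := by ring
      rw [e] at h2
      nlinarith

theorem step {H : ℝ} (h : 1 / 2 < H) (h1 : H < 1) (m : ℕ) :
    ((m : ℝ)) * phi H (m + 2) ≤ ((m : ℝ) + 3) * phi H (m + 3) := by
  have hm : (0 : ℝ) ≤ m := Nat.cast_nonneg m
  have e2 := phi_eq H (m + 1)
  have e3 := phi_eq H (m + 2)
  push_cast at e2 e3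
  have hconv : ConvexOn ℝ (Ici ((m : ℝ) + 1))
      (fun y : ℝ => (m : ℝ) * y ^ (2 * H - 1) - ((m : ℝ) + 3) * (y + 1) ^ (2 * H - 1)) := by
    apply convexOn_of_hasDerivWithinAt2_nonneg (convex_Ici _)
      (f' := fun y : ℝ => (m : ℝ) * ((2 * H - 1) * y ^ (2 * H - 1 - 1))
        - ((m : ℝ) + 3) * ((2 * H - 1) * (y + 1) ^ (2 * H - 1 - 1)))
      (f'' := fun y : ℝ => (m : ℝ) * ((2 * H - 1) * ((2 * H - 1 - 1) * y ^ (2 * H - 1 - 1 - 1)))
        - ((m : ℝ) + 3) * ((2 * H - 1) * ((2 * H - 1 - 1) * (y + 1) ^ (2 * H - 1 - 1 - 1))))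
    · apply Continuous.continuousOn
      have c1 : Continuous (fun y : ℝ => y ^ (2 * H - 1)) := Real.continuous_rpow_const (by linarith)
      exact (continuous_const.mul c1).sub (continuous_const.mul (c1.comp (by fun_prop)))
    · intro y hy
      rw [interior_Ici] at hy
      have hy' : (m : ℝ) + 1 < y := hy
      have d1 : HasDerivAt (fun y : ℝ => y ^ (2 * H - 1)) ((2 * H - 1) * y ^ (2 * H - 1 - 1)) y :=
        Real.hasDerivAt_rpow_const (Or.inl (by linarith))
      have d2 : HasDerivAt (fun y : ℝ => (y + 1) ^ (2 * H - 1))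
          ((2 * H - 1) * (y + 1) ^ (2 * H - 1 - 1)) y :=
        (Real.hasDerivAt_rpow_const (x := y + 1) (p := 2 * H - 1)
          (Or.inl (by linarith))).comp_add_const y 1
      exact ((d1.const_mul _).sub (d2.const_mul _)).hasDerivWithinAt
    · intro y hy
      rw [interior_Ici] at hy
      have hy' : (m : ℝ) + 1 < y := hy
      have d1 : HasDerivAt (fun y : ℝ => y ^ (2 * H - 1 - 1))
          ((2 * H - 1 - 1) * y ^ (2 * H - 1 - 1 - 1)) y :=
        Real.hasDerivAt_rpow_const (Or.inl (by linarith))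
      have d2 : HasDerivAt (fun y : ℝ => (y + 1) ^ (2 * H - 1 - 1))
          ((2 * H - 1 - 1) * (y + 1) ^ (2 * H - 1 - 1 - 1)) y :=
        (Real.hasDerivAt_rpow_const (x := y + 1) (p := 2 * H - 1 - 1)
          (Or.inl (by linarith))).comp_add_const y 1
      exact (((d1.const_mul _).const_mul _).sub ((d2.const_mul _).const_mul _)).hasDerivWithinAt
    · intro y hy
      rw [interior_Ici] at hy
      have hy' : (m : ℝ) + 1 < y := hy
      have hy0 : 0 < y := by linarith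
      -- m y^(s-3) ≤ (m+3) (y+1)^(s-3)
      have hmain : (m : ℝ) * y ^ (2 * H - 1 - 1 - 1) ≤ ((m : ℝ) + 3) * (y + 1) ^ (2 * H - 1 - 1 - 1) := by
        have hr : ((y + 1) / y) ^ (3 - 2 * H) ≤ ((y + 1) / y) ^ (2 : ℝ) :=
          Real.rpow_le_rpow_of_exponent_le (by rw [le_div_iff₀ hy0]; linarith) (by linarith)
        rw [Real.rpow_two] at hr
        have hr2 : (m : ℝ) * ((y + 1) / y) ^ 2 ≤ (m : ℝ) + 3 := by
          rw [div_pow, mul_div_assoc', div_le_iff₀ (by positivity)]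
          nlinarith [mul_nonneg hm hm, mul_nonneg hm hy0.le, sq_nonneg (y - m - 1)]
        have e4 : y ^ (2 * H - 1 - 1 - 1) = ((y + 1) / y) ^ (3 - 2 * H) * (y + 1) ^ (2 * H - 1 - 1 - 1) := by
          rw [Real.div_rpow (by linarith) hy0.le]
          have a1 : y ^ (3 - 2 * H) * y ^ (2 * H - 1 - 1 - 1) = 1 := by
            rw [← Real.rpow_add hy0]
            have : 3 - 2 * H + (2 * H - 1 - 1 - 1) = 0 := by ring
            rw [this, Real.rpow_zero]
          have a2 : (y + 1) ^ (3 - 2 * H) * (y + 1) ^ (2 * H - 1 - 1 - 1) = 1 := by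
            rw [← Real.rpow_add (by linarith)]
            have : 3 - 2 * H + (2 * H - 1 - 1 - 1) = 0 := by ring
            rw [this, Real.rpow_zero]
          have a3 : 0 < y ^ (3 - 2 * H) := Real.rpow_pos_of_pos hy0 _
          rw [div_mul_eq_mul_div, a2, eq_div_iff a3.ne', mul_comm, a1]
        rw [e4]
        have a4 : 0 < (y + 1) ^ (2 * H - 1 - 1 - 1) := Real.rpow_pos_of_pos (by linarith) _
        calc (m : ℝ) * (((y + 1) / y) ^ (3 - 2 * H) * (y + 1) ^ (2 * H - 1 - 1 - 1))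
            = ((m : ℝ) * ((y + 1) / y) ^ (3 - 2 * H)) * (y + 1) ^ (2 * H - 1 - 1 - 1) := by ring
          _ ≤ ((m : ℝ) + 3) * (y + 1) ^ (2 * H - 1 - 1 - 1) := by
              apply mul_le_mul_of_nonneg_right _ a4.le
              exact (mul_le_mul_of_nonneg_left hr hm).trans hr2
      have hco : 0 ≤ (2 * H - 1) * (1 + 1 - 2 * H) := mul_nonneg (by linarith) (by linarith)
      nlinarith [mul_nonneg hco (sub_nonneg.2 hmain)]
  have key := D3 (q := fun y : ℝ => (m : ℝ) * y ^ (2 * H) - ((m : ℝ) + 3) * (y + 1) ^ (2 * H))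
    (q' := fun y : ℝ => (m : ℝ) * ((2 * H) * y ^ (2 * H - 1))
      - ((m : ℝ) + 3) * ((2 * H) * (y + 1) ^ (2 * H - 1))) (a := (m : ℝ) + 1) ?_ ?_ ?_
  · have t1 : (m : ℝ) + 1 + 3 = m + 4 := by ring
    have t2 : (m : ℝ) + 1 + 2 = m + 3 := by ring
    have t3 : (m : ℝ) + 1 + 1 = m + 2 := by ring
    have t4 : (m : ℝ) + 4 + 1 = m + 5 := by ring
    have t5 : (m : ℝ) + 3 + 1 = m + 4 := by ring
    have t6 : (m : ℝ) + 2 + 1 = m + 3 := by ring
    have t7 : (m : ℝ) + 2 + 3 = m + 5 := by ring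
    have t8 : (m : ℝ) + 2 + 2 = m + 4 := by ring
    rw [t1, t2, t3, t4, t5, t6] at key
    rw [t1, t2, t3] at e2
    rw [t6, t7, t8] at e3
    have e2' : phi H (m + 2) = -(((m : ℝ) + 4) ^ (2 * H) - 3 * ((m : ℝ) + 3) ^ (2 * H)
      + 3 * ((m : ℝ) + 2) ^ (2 * H) - ((m : ℝ) + 1) ^ (2 * H)) / 2 := e2
    have e3' : phi H (m + 3) = -(((m : ℝ) + 5) ^ (2 * H) - 3 * ((m : ℝ) + 4) ^ (2 * H)
      + 3 * ((m : ℝ) + 3) ^ (2 * H) - ((m : ℝ) + 2) ^ (2 * H)) / 2 := e3
    rw [e2', e3']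
    linarith
  · apply Continuous.continuousOn
    have c1 : Continuous (fun y : ℝ => y ^ (2 * H)) := Real.continuous_rpow_const (by linarith)
    exact (continuous_const.mul c1).sub (continuous_const.mul (c1.comp (by fun_prop)))
  · intro y hy
    have hy' : (m : ℝ) + 1 < y := hy.1
    have d1 : HasDerivAt (fun y : ℝ => y ^ (2 * H)) ((2 * H) * y ^ (2 * H - 1)) y :=
      Real.hasDerivAt_rpow_const (Or.inl (by linarith))
    have d2 : HasDerivAt (fun y : ℝ => (y + 1) ^ (2 * H))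
        ((2 * H) * (y + 1) ^ (2 * H - 1)) y :=
      (Real.hasDerivAt_rpow_const (x := y + 1) (p := 2 * H)
        (Or.inl (by linarith))).comp_add_const y 1
    exact (d1.const_mul _).sub (d2.const_mul _)
  · intro x hx
    have h2 := hconv.2 (show x ∈ Ici ((m : ℝ) + 1) by simp only [mem_Ici]; linarith [hx.1])
      (show x + 2 ∈ Ici ((m : ℝ) + 1) by simp only [mem_Ici]; linarith [hx.1])
      (by norm_num : (0 : ℝ) ≤ 1 / 2) (by norm_num : (0 : ℝ) ≤ 1 / 2) (by norm_num)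
    simp only [smul_eq_mul] at h2
    have e : 1 / 2 * x + 1 / 2 * (x + 2) = x + 1 := by ring
    rw [e] at h2
    have hH : 0 ≤ 2 * H := by linarith
    have h3 := mul_le_mul_of_nonneg_left h2 hH
    linarith

theorem dlt_succ (H : ℝ) (n : ℕ) : dlt H ((n : ℤ) + 1) = phi H (n + 1) - phi H n := by
  unfold dlt phi
  push_cast
  have e : (n : ℤ) + 1 - 1 = n := by ring
  rw [e]
  ring

theorem key {H : ℝ} (h : 1 / 2 < H) (h1 : H < 1) (n : ℕ) :
    ((n : ℝ) + 1) * (- dlt H ((n : ℤ) + 1)) ≤ 3 * phi H n := by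
  rw [dlt_succ]
  have hp0 := phi_pos h h1 n
  have hp1 := phi_pos h h1 (n + 1)
  rcases n with _ | _ | m
  · push_cast
    nlinarith
  · push_cast
    nlinarith
  · have hs := step h h1 m
    push_cast
    have e : phi H (m + 1 + 1) = phi H (m + 2) := rfl
    have e' : phi H (m + 1 + 1 + 1) = phi H (m + 3) := rfl
    rw [e, e']
    linarith

end Pool.Agent.K4H61.FH
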