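import Pool.Agent.K4H40.NS.Spec

/-!
Piece KEY of MP_233bd3_co.
-/

set_option autoImplicit false

namespace Pool.Agent.K4H61.NSKey

open MvPolynomial Module Pool.Agent.K4H40.NS

noncomputable section

variable {n : ℕ} {K : Type} [Field K]

/-- induction over forms of degree `d` -/
theorem hs_ind {d : ℕ} (N : Submodule K (R n K))
    (h : ∀ m : Fin n →₀ ℕ, m.degree = d → monomial m (1 : K) ∈ N) : hs n K d ≤ N := by
  intro f hf
  rw [← support_sum_monomial_coeff f]
  refine Submodule.sum_mem _ fun m hm => ?_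
  have hd : m.degree = d := by
    have h1 : f.IsHomogeneous d := hf
    have h2 := h1 (mem_support_iff.1 hm)
    rw [Finsupp.degree_eq_weight_one]
    exact h2
  have e : monomial m (coeff m f) = (coeff m f) • monomial m (1 : K) := by
    rw [smul_monomial]; simp
  rw [e]
  exact N.smul_mem _ (h m hd)

theorem key : StKEY := by
  intro n k K _ I s hphi h hKP hJ
  by_contra hcon
  have hK : ∀ x ∈ hs n K 1, ∀ y ∈ hs n K 1, ∀ g ∈ hs n K k, ∀ p ∈ hs n K k, ∀ q ∈ hs n K k,
      y * g - s.ω * p ∈ s.J → x * g - s.ω * q ∈ s.J → x * p - y * q ∈ s.J := by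
    intro x hx y hy g hg p hp q hq h1 h2
    by_contra h3
    exact hcon ⟨x, hx, y, hy, g, hg, p, hp, q, hq, h1, h2, h3⟩
  have hc : ∀ m : Fin n →₀ ℕ, ∃ a : R n K, m.degree = k + 1 →
      a ∈ hs n K k ∧ monomial m (1 : K) - s.ω * a ∈ s.J := by
    intro m
    by_cases hm : m.degree = k + 1
    · obtain ⟨a, ha, hb⟩ := hphi (monomial m 1) (isHomogeneous_monomial 1 hm)
      exact ⟨a, fun _ => ⟨ha, hb⟩⟩
    · exact ⟨0, fun h => absurd h hm⟩
  choose c hc using hc
  set φ : R n K →ₗ[K] R n K := (basisMonomials (Fin n) K).constr K c with hφdef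
  have hφm : ∀ m : Fin n →₀ ℕ, φ (monomial m (1 : K)) = c m := by
    intro m
    have := (basisMonomials (Fin n) K).constr_basis K c m
    rwa [coe_basisMonomials] at this
  have hφ1 : ∀ f ∈ hs n K (k + 1), φ f ∈ hs n K k := by
    intro f hf
    have := hs_ind ((hs n K k).comap φ) (fun m hm => by
      rw [Submodule.mem_comap, hφm]; exact (hc m hm).1) hf
    exact this
  have hφ2 : ∀ f ∈ hs n K (k + 1), f - s.ω * φ f ∈ s.J := by
    intro f hf
    have := hs_ind ((s.J.restrictScalars K).comap
      (LinearMap.id - (LinearMap.mulLeft K s.ω) ∘ₗ φ)) (fun m hm => by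
      rw [Submodule.mem_comap]
      simp only [LinearMap.sub_apply, LinearMap.id_apply, LinearMap.comp_apply,
        LinearMap.mulLeft_apply, hφm, Submodule.restrictScalars_mem]
      exact (hc m hm).2) hf
    simpa using this
  set ψ : (Fin n →₀ ℕ) → R n K := fun e => by
    classical
    exact if h : e.support.Nonempty then
      X h.choose * φ (monomial (e - Finsupp.single h.choose 1) (1 : K)) else 0 with hψ
  set Φ : R n K →ₗ[K] R n K := (basisMonomials (Fin n) K).constr K ψ with hΦdef
  have hΦm : ∀ m : Fin n →₀ ℕ, Φ (monomial m (1 : K)) = ψ m := by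
    intro m
    have := (basisMonomials (Fin n) K).constr_basis K ψ m
    rwa [coe_basisMonomials] at this
  have hXm : ∀ (l : Fin n) (m : Fin n →₀ ℕ),
      X l * monomial m (1 : K) = monomial (m + Finsupp.single l 1) (1 : K) := by
    intro l m
    rw [X, monomial_mul, add_comm, one_mul]
  have hX1 : ∀ l : Fin n, (X l : R n K) ∈ hs n K 1 := fun l => isHomogeneous_X K l
  have hΦ1 : ∀ (l : Fin n) (m : Fin n →₀ ℕ), m.degree = k + 1 →
      Φ (X l * monomial m (1 : K)) - X l * φ (monomial m (1 : K)) ∈ s.J := by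
    intro l m hm
    rw [hXm, hΦm]
    have hne : (m + Finsupp.single l 1).support.Nonempty := ⟨l, by simp⟩
    have hspec := hne.choose_spec
    have hval : ψ (m + Finsupp.single l 1) = X hne.choose *
        φ (monomial (m + Finsupp.single l 1 - Finsupp.single hne.choose 1) (1 : K)) := by
      simp only [hψ]
      rw [dif_pos hne]
    rw [hval]
    generalize hne.choose = l' at hspec
    by_cases hll : l' = l
    · subst hll
      rw [add_tsub_cancel_right, sub_self]
      exact s.J.zero_mem
    · have hml : 1 ≤ m l' := by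
        rw [Finsupp.mem_support_iff, Finsupp.add_apply, Finsupp.single_apply,
          if_neg (fun hh => hll hh.symm), add_zero] at hspec
        omega
      have hle : Finsupp.single l' 1 ≤ m := by
        rw [Finsupp.single_le_iff]; exact hml
      obtain ⟨m2, hm2⟩ : ∃ m2, m = m2 + Finsupp.single l' 1 :=
        ⟨m - Finsupp.single l' 1, (tsub_add_cancel_of_le hle).symm⟩
      have hd2 : m2.degree = k := by
        rw [hm2, map_add, Finsupp.degree_single] at hm
        omega
      have e1 : m + Finsupp.single l 1 - Finsupp.single l' 1 = m2 + Finsupp.single l 1 := by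
        rw [hm2, add_right_comm, add_tsub_cancel_right]
      have hg : monomial m2 (1 : K) ∈ hs n K k := isHomogeneous_monomial 1 hd2
      have d1 : (m2 + Finsupp.single l 1).degree = k + 1 := by
        rw [map_add, Finsupp.degree_single, hd2]
      have d2 : (m2 + Finsupp.single l' 1).degree = k + 1 := by
        rw [map_add, Finsupp.degree_single, hd2]
      have f1 : monomial (m2 + Finsupp.single l 1) (1 : K) ∈ hs n K (k + 1) :=
        isHomogeneous_monomial 1 d1
      have f2 : monomial (m2 + Finsupp.single l' 1) (1 : K) ∈ hs n K (k + 1) :=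
        isHomogeneous_monomial 1 d2
      rw [e1, hm2]
      refine hK (X l') (hX1 l') (X l) (hX1 l) (monomial m2 1) hg _ (hφ1 _ f1) _ (hφ1 _ f2) ?_ ?_
      · rw [hXm]; exact hφ2 _ f1
      · rw [hXm]; exact hφ2 _ f2
  have hΦ2 : ∀ (l : Fin n), ∀ f ∈ hs n K (k + 1), Φ (X l * f) - X l * φ f ∈ s.J := by
    intro l f hf
    have := hs_ind ((s.J.restrictScalars K).comap
      (Φ ∘ₗ (LinearMap.mulLeft K (X l)) - (LinearMap.mulLeft K (X l)) ∘ₗ φ)) (fun m hm => by
      rw [Submodule.mem_comap]
      simp only [LinearMap.sub_apply, LinearMap.comp_apply,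
        LinearMap.mulLeft_apply, Submodule.restrictScalars_mem]
      exact hΦ1 l m hm) hf
    simpa using this
  have hΦ3 : ∀ x ∈ hs n K 1, ∀ f ∈ hs n K (k + 1), Φ (x * f) - x * φ f ∈ s.J := by
    intro x hx f hf
    have := hs_ind ((s.J.restrictScalars K).comap
      (Φ ∘ₗ (LinearMap.mulRight K f) - (LinearMap.mulRight K (φ f)))) (fun m hm => by
      rw [Submodule.mem_comap]
      simp only [LinearMap.sub_apply, LinearMap.comp_apply,
        LinearMap.mulRight_apply, Submodule.restrictScalars_mem]
      obtain ⟨l, hl⟩ : ∃ l : Fin n, m = Finsupp.single l 1 := by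
        have h0 : m ≠ 0 := by
          rintro rfl
          simp at hm
        obtain ⟨l, hl⟩ := Finsupp.support_nonempty_iff.2 h0
        have hml : 1 ≤ m l := Nat.one_le_iff_ne_zero.2 (Finsupp.mem_support_iff.1 hl)
        have hle : Finsupp.single l 1 ≤ m := by
          rw [Finsupp.single_le_iff]; exact hml
        obtain ⟨m2, hm2⟩ : ∃ m2, m = m2 + Finsupp.single l 1 :=
          ⟨m - Finsupp.single l 1, (tsub_add_cancel_of_le hle).symm⟩
        have hd2 : m2.degree = 0 := by
          rw [hm2, map_add, Finsupp.degree_single] at hm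
          omega
        rw [Finsupp.degree_eq_zero_iff] at hd2
        exact ⟨l, by rw [hm2, hd2, zero_add]⟩
      rw [hl]
      exact hΦ2 l f hf) hx
    simpa using this
  have hle : s.P ≤ (s.J.restrictScalars K).comap Φ := by
    unfold Sys.P RI Sys.Th
    rw [sup_le_iff, Submodule.span_le, Submodule.span_le]
    constructor
    · rintro _ ⟨x, hx, f, hf, rfl⟩
      have hf1 : f ∈ I := hf.1
      have hf2 : f ∈ hs n K (k + 1) := hf.2
      have hfJ : f ∈ s.J := (le_sup_left : I ≤ s.J) hf1
      have h1 : s.ω * φ f ∈ s.J := by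
        have := s.J.sub_mem hfJ (hφ2 f hf2)
        rwa [sub_sub_cancel] at this
      have h2 : φ f ∈ s.J := s.lefschetz _ (hφ1 f hf2) h1
      have h3 := s.J.add_mem (hΦ3 x hx f hf2) (s.J.mul_mem_left x h2)
      rw [sub_add_cancel] at h3
      exact h3
    · rintro _ ⟨i, f, hf, rfl⟩
      have h2 : s.θ i ∈ s.J := (le_sup_right : Ideal.span (Set.range s.θ) ≤ s.J)
        (Ideal.subset_span ⟨i, rfl⟩)
      have h3 := s.J.add_mem (hΦ3 _ (s.θ_lin i) f hf) (s.J.mul_mem_right (φ f) h2)
      rw [sub_add_cancel] at h3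
      exact h3
  have hh1 : s.ω * h ∈ s.P := hKP.1
  have hh2 : h ∈ hs n K (k + 1) := hKP.2
  have h1 : Φ (s.ω * h) ∈ s.J := hle hh1
  have h2 := hΦ3 s.ω s.ω_lin h hh2
  have h3 : s.ω * φ h ∈ s.J := by
    have := s.J.sub_mem h1 h2
    rwa [sub_sub_cancel] at this
  have h4 := s.J.add_mem (hφ2 h hh2) h3
  rw [sub_add_cancel] at h4
  exact hJ h4

end

end Pool.Agent.K4H61.NSKey
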