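import Mathlib

/-!
# Graphs whose half-sets are uniformly dense contain all cliques

Elementary bilinear form argument.
-/

set_option autoImplicit false
set_option linter.unusedSectionVars false

namespace Pool.Agent.K4H61.Halves

open Finset

section Form

variable {V : Type} [Fintype V] [DecidableEq V]

/-- The bilinear form of a matrix. -/
def B (A : V → V → ℝ) (f g : V → ℝ) : ℝ := ∑ u, ∑ v, A u v * f u * g v

/-- Indicator function of a finset. -/
def ind (W : Finset V) : V → ℝ := fun v => if v ∈ W then 1 else 0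

lemma B_add_left (A : V → V → ℝ) (f f' g : V → ℝ) : B A (f + f') g = B A f g + B A f' g := by
  simp only [B, Pi.add_apply]
  rw [← Finset.sum_add_distrib]
  refine Finset.sum_congr rfl fun u _ => ?_
  rw [← Finset.sum_add_distrib]
  refine Finset.sum_congr rfl fun v _ => ?_
  ring

lemma B_add_right (A : V → V → ℝ) (f g g' : V → ℝ) : B A f (g + g') = B A f g + B A f g' := by
  simp only [B, Pi.add_apply]
  rw [← Finset.sum_add_distrib]
  refine Finset.sum_congr rfl fun u _ => ?_
  rw [← Finset.sum_add_distrib]
  refine Finset.sum_congr rfl fun v _ => ?_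
  ring

lemma B_smul_left (A : V → V → ℝ) (c : ℝ) (f g : V → ℝ) : B A (c • f) g = c * B A f g := by
  simp only [B, Pi.smul_apply, smul_eq_mul]
  rw [Finset.mul_sum]
  refine Finset.sum_congr rfl fun u _ => ?_
  rw [Finset.mul_sum]
  refine Finset.sum_congr rfl fun v _ => ?_
  ring

lemma B_smul_right (A : V → V → ℝ) (c : ℝ) (f g : V → ℝ) : B A f (c • g) = c * B A f g := by
  simp only [B, Pi.smul_apply, smul_eq_mul]
  rw [Finset.mul_sum]
  refine Finset.sum_congr rfl fun u _ => ?_
  rw [Finset.mul_sum]
  refine Finset.sum_congr rfl fun v _ => ?_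
  ring

lemma B_comm {A : V → V → ℝ} (hA : ∀ u v, A u v = A v u) (f g : V → ℝ) : B A f g = B A g f := by
  simp only [B]
  rw [Finset.sum_comm]
  refine Finset.sum_congr rfl fun u _ => ?_
  refine Finset.sum_congr rfl fun v _ => ?_
  rw [hA v u]; ring

lemma B_single (A : V → V → ℝ) (i j : V) : B A (Pi.single i 1) (Pi.single j 1) = A i j := by
  simp only [B]
  rw [Finset.sum_eq_single i]
  · rw [Finset.sum_eq_single j]
    · simp
    · intro b _ hb
      simp [Pi.single_eq_of_ne hb]
    · simp
  · intro b _ hb
    simp [Pi.single_eq_of_ne hb]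
  · simp

/-- Moving mass from `j` to `i`. -/
lemma B_move {A : V → V → ℝ} (hA : ∀ u v, A u v = A v u) (hd : ∀ u, A u u = 0)
    (h : V → ℝ) (i j : V) (s : ℝ) :
    B A (h + s • (Pi.single i 1 - Pi.single j 1)) (h + s • (Pi.single i 1 - Pi.single j 1)) =
      B A h h + s * (2 * B A h (Pi.single i 1 - Pi.single j 1)) - 2 * s ^ 2 * A i j := by
  have e : (Pi.single i 1 - Pi.single j 1 : V → ℝ) = Pi.single i 1 + (-1 : ℝ) • Pi.single j 1 := by
    rw [neg_one_smul, sub_eq_add_neg]
  rw [e]
  simp only [B_add_left, B_add_right, B_smul_left, B_smul_right]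
  rw [B_comm hA (Pi.single i 1) h, B_comm hA (Pi.single j 1) h]
  simp only [B_single]
  rw [hA j i, hd i, hd j]
  ring

/-- Rounding a fractional vector with integral sum to a set without increasing the form. -/
theorem pipage {A : V → V → ℝ} (hA : ∀ u v, A u v = A v u) (hd : ∀ u, A u u = 0)
    (h0 : ∀ u v, 0 ≤ A u v) (m : ℕ) :
    ∀ (r : ℕ) (h : V → ℝ), (∀ v, 0 ≤ h v) → (∀ v, h v ≤ 1) → ∑ v, h v = m →
      (univ.filter fun v => 0 < h v ∧ h v < 1).card = r →
      ∃ W : Finset V, W.card = m ∧ B A (ind W) (ind W) ≤ B A h h := by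
  intro r
  induction r using Nat.strong_induction_on with
  | _ r ih =>
    intro h hh0 hh1 hsum hr
    set F := univ.filter fun v => 0 < h v ∧ h v < 1 with hF
    -- no fractional entries
    by_cases hF0 : F = ∅
    · have key : ∀ v, h v = 0 ∨ h v = 1 := by
        intro v
        by_contra hcon
        push Not at hcon
        have : v ∈ F := by
          rw [hF, Finset.mem_filter]
          exact ⟨Finset.mem_univ _, lt_of_le_of_ne (hh0 v) (Ne.symm hcon.1),
            lt_of_le_of_ne (hh1 v) hcon.2⟩
        rw [hF0] at this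
        simp at this
      have hind : ind (univ.filter fun v => h v = 1) = h := by
        funext v
        rcases key v with hv | hv
        · simp [ind, hv]
        · simp [ind, hv]
      refine ⟨univ.filter fun v => h v = 1, ?_, ?_⟩
      · have : ((univ.filter fun v => h v = 1).card : ℝ) = m := by
          rw [← hsum, ← hind]
          simp [ind]
        exact_mod_cast this
      · rw [hind]
    · obtain ⟨i, hi⟩ := Finset.nonempty_iff_ne_empty.2 hF0
      have hi' : 0 < h i ∧ h i < 1 := (Finset.mem_filter.1 hi).2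
      -- a second fractional entry
      have : ∃ j ∈ F, j ≠ i := by
        by_contra hcon
        push Not at hcon
        have hall : ∀ v, v ≠ i → (h v = 0 ∨ h v = 1) := by
          intro v hv
          by_contra hc
          push Not at hc
          exact hv (hcon v (by
            rw [hF, Finset.mem_filter]
            exact ⟨Finset.mem_univ _, lt_of_le_of_ne (hh0 v) (Ne.symm hc.1),
              lt_of_le_of_ne (hh1 v) hc.2⟩))
        have hs : ∑ v, h v = h i + ((univ.erase i).filter fun v => h v = 1).card := by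
          rw [← Finset.add_sum_erase _ _ (Finset.mem_univ i)]
          congr 1
          rw [Finset.card_filter]
          push_cast
          refine Finset.sum_congr rfl fun v hv => ?_
          rcases hall v (Finset.ne_of_mem_erase hv) with h' | h' <;> simp [h']
        rw [hs] at hsum
        have h1 : (0 : ℝ) < (m : ℝ) - ((univ.erase i).filter fun v => h v = 1).card := by
          linarith [hi'.1]
        have h2 : (m : ℝ) - ((univ.erase i).filter fun v => h v = 1).card < 1 := by
          linarith [hi'.2]
        have h3 : (0 : ℤ) < (m : ℤ) - ((univ.erase i).filter fun v => h v = 1).card := by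
          exact_mod_cast h1
        have h4 : (m : ℤ) - ((univ.erase i).filter fun v => h v = 1).card < 1 := by
          exact_mod_cast h2
        omega
      obtain ⟨j, hj, hji⟩ := this
      have hj' : 0 < h j ∧ h j < 1 := (Finset.mem_filter.1 hj).2
      -- general step
      have step : ∀ s : ℝ, (0 ≤ h i + s) → (h i + s ≤ 1) → (0 ≤ h j - s) → (h j - s ≤ 1) →
          (h i + s = 0 ∨ h i + s = 1 ∨ h j - s = 0 ∨ h j - s = 1) →
          s * (2 * B A h (Pi.single i 1 - Pi.single j 1)) ≤ 0 →
          ∃ W : Finset V, W.card = m ∧ B A (ind W) (ind W) ≤ B A h h := by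
        intro s a1 a2 a3 a4 a5 a6
        set h' : V → ℝ := h + s • (Pi.single i 1 - Pi.single j 1) with hh'
        have ei : h' i = h i + s := by
          simp [hh', Pi.single_apply, hji.symm]
        have ej : h' j = h j - s := by
          simp [hh', Pi.single_apply, hji]; ring
        have ev : ∀ v, v ≠ i → v ≠ j → h' v = h v := by
          intro v h1 h2
          simp [hh', Pi.single_apply, h1, h2]
        have hsum' : ∑ v, h' v = m := by
          rw [← hsum, hh']
          simp only [Pi.add_apply, Pi.smul_apply, Pi.sub_apply, smul_eq_mul]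
          rw [Finset.sum_add_distrib, ← Finset.mul_sum, Finset.sum_sub_distrib]
          simp
        have hB : B A h' h' ≤ B A h h := by
          rw [hh', B_move hA hd]
          have := mul_nonneg (mul_nonneg (by norm_num : (0:ℝ) ≤ 2) (sq_nonneg s)) (h0 i j)
          linarith
        have b0 : ∀ v, 0 ≤ h' v := by
          intro v
          by_cases h1 : v = i
          · rw [h1, ei]; exact a1
          · by_cases h2 : v = j
            · rw [h2, ej]; exact a3
            · rw [ev v h1 h2]; exact hh0 v
        have b1 : ∀ v, h' v ≤ 1 := by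
          intro v
          by_cases h1 : v = i
          · rw [h1, ei]; exact a2
          · by_cases h2 : v = j
            · rw [h2, ej]; exact a4
            · rw [ev v h1 h2]; exact hh1 v
        have hsub : (univ.filter fun v => 0 < h' v ∧ h' v < 1) ⊂ F := by
          rw [Finset.ssubset_iff_of_subset]
          · rcases a5 with h1 | h1 | h1 | h1
            · refine ⟨i, hi, ?_⟩
              simp [ei, h1]
            · refine ⟨i, hi, ?_⟩
              simp [ei, h1]
            · refine ⟨j, hj, ?_⟩
              simp [ej, h1]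
            · refine ⟨j, hj, ?_⟩
              simp [ej, h1]
          · intro v hv
            by_cases h1 : v = i
            · rw [h1]; exact hi
            · by_cases h2 : v = j
              · rw [h2]; exact hj
              · rw [Finset.mem_filter, ev v h1 h2] at hv
                rw [hF, Finset.mem_filter]
                exact hv
        have hcard := Finset.card_lt_card hsub
        rw [hr] at hcard
        obtain ⟨W, hW1, hW2⟩ := ih _ hcard h' b0 b1 hsum' rfl
        exact ⟨W, hW1, hW2.trans hB⟩
      rcases le_total (2 * B A h (Pi.single i 1 - Pi.single j 1)) 0 with hL | hL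
      · -- increase i
        rcases le_total (1 - h i) (h j) with hc | hc
        · refine step (1 - h i) (by linarith) (by linarith) (by linarith) (by linarith [hi'.2, hj'.2])
            (Or.inr (Or.inl (by ring))) (mul_nonpos_of_nonneg_of_nonpos (by linarith [hi'.2]) hL)
        · refine step (h j) (by linarith [hi'.1, hj'.1]) (by linarith) (by linarith) (by linarith)
            (Or.inr (Or.inr (Or.inl (by ring))))
            (mul_nonpos_of_nonneg_of_nonpos (by linarith [hj'.1]) hL)
      · rcases le_total (h i) (1 - h j) with hc | hc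
        · refine step (-(h i)) (by linarith) (by linarith) (by linarith [hi'.1, hj'.1]) (by linarith)
            (Or.inl (by ring)) (mul_nonpos_of_nonpos_of_nonneg (by linarith [hi'.1]) hL)
        · refine step (h j - 1) (by linarith) (by linarith [hi'.2, hj'.2]) (by linarith) (by linarith)
            (Or.inr (Or.inr (Or.inr (by ring))))
            (mul_nonpos_of_nonpos_of_nonneg (by linarith [hj'.2]) hL)

/-- bound on the form -/
lemma B_abs_le {A : V → V → ℝ} (h0 : ∀ u v, 0 ≤ A u v) (h1 : ∀ u v, A u v ≤ 1)
    (f g : V → ℝ) (hf : ∀ v, |f v| ≤ 1) (hg : ∀ v, |g v| ≤ 1) :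
    |B A f g| ≤ (Fintype.card V : ℝ) ^ 2 := by
  unfold B
  calc |∑ u, ∑ v, A u v * f u * g v| ≤ ∑ u, |∑ v, A u v * f u * g v| :=
        Finset.abs_sum_le_sum_abs _ _
    _ ≤ ∑ u, ∑ v, |A u v * f u * g v| :=
        Finset.sum_le_sum fun u _ => Finset.abs_sum_le_sum_abs _ _
    _ ≤ ∑ _u : V, ∑ _v : V, (1 : ℝ) := by
        refine Finset.sum_le_sum fun u _ => Finset.sum_le_sum fun v _ => ?_
        rw [abs_mul, abs_mul, abs_of_nonneg (h0 u v)]
        have := mul_le_mul (h1 u v) (hf u) (abs_nonneg _) (by norm_num)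
        calc A u v * |f u| * |g v| ≤ (1 * 1) * 1 :=
              mul_le_mul this (hg v) (abs_nonneg _) (by norm_num)
          _ = 1 := by norm_num
    _ = (Fintype.card V : ℝ) ^ 2 := by
        simp [sq]

/-- The main analytic step: dense half-sets make the form almost positive semidefinite. -/
theorem almost_psd {A : V → V → ℝ} (hA : ∀ u v, A u v = A v u) (hd : ∀ u, A u u = 0)
    (h0 : ∀ u v, 0 ≤ A u v) (h1 : ∀ u v, A u v ≤ 1) (hn : 2 ≤ Fintype.card V)
    (c s : ℝ) (hs0 : 0 < s) (hs1 : s ≤ 1)
    (hD : B A (fun _ => 1) (fun _ => 1) ≤ 2 * c * (Fintype.card V : ℝ) ^ 2)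
    (hW : ∀ W : Finset V, W.card = Fintype.card V / 2 →
      (c / 2 - s ^ 2) * (Fintype.card V : ℝ) ^ 2 ≤ B A (ind W) (ind W))
    (f : V → ℝ) (hf : ∀ v, |f v| ≤ 1) :
    - (72 * s) * (Fintype.card V : ℝ) ^ 2 ≤ B A f f := by
  set n := Fintype.card V with hndef
  have hn0 : (0 : ℝ) < n := by
    have : 0 < n := by omega
    exact_mod_cast this
  set m := n / 2 with hm
  set β : ℝ := (m : ℝ) / n with hβ
  have hβn : β * n = m := by rw [hβ]; field_simp
  have hβ2 : β ≤ 1 / 2 := by
    rw [hβ, div_le_iff₀ hn0]
    have : 2 * m ≤ n := by omega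
    have : (2 : ℝ) * m ≤ n := by exact_mod_cast this
    linarith
  have hβ3 : 1 / 3 ≤ β := by
    rw [hβ, le_div_iff₀ hn0]
    have : n ≤ 3 * m := by omega
    have : (n : ℝ) ≤ 3 * m := by exact_mod_cast this
    linarith
  set one : V → ℝ := fun _ => 1 with hone
  set D := B A one one with hDdef
  -- the inequality for mean zero functions
  have main : ∀ g : V → ℝ, ∑ v, g v = 0 → (∀ v, |g v| ≤ 1 / 3) →
      - s ^ 2 * (n : ℝ) ^ 2 ≤ 2 * β * B A one g + B A g g := by
    intro g hg0 hg1
    have hb0 : ∀ v, 0 ≤ (β • one + g) v := by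
      intro v
      simp only [Pi.add_apply, Pi.smul_apply, smul_eq_mul, hone]
      have := (abs_le.1 (hg1 v)).1
      linarith
    have hb1 : ∀ v, (β • one + g) v ≤ 1 := by
      intro v
      simp only [Pi.add_apply, Pi.smul_apply, smul_eq_mul, hone]
      have := (abs_le.1 (hg1 v)).2
      linarith
    have hsum : ∑ v, (β • one + g) v = (m : ℝ) := by
      simp only [Pi.add_apply, Pi.smul_apply, smul_eq_mul, hone]
      rw [Finset.sum_add_distrib, hg0]
      simp only [mul_one, sum_const, card_univ, nsmul_eq_mul, add_zero]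
      rw [← hndef, mul_comm]
      exact hβn
    obtain ⟨W, hW1, hW2⟩ := pipage hA hd h0 m _ _ hb0 hb1 hsum rfl
    have h3 := hW W hW1
    have h4 : B A (β • one + g) (β • one + g) = β ^ 2 * D + 2 * β * B A one g + B A g g := by
      simp only [B_add_left, B_add_right, B_smul_left, B_smul_right]
      rw [B_comm hA g one]
      ring
    have h5 : β ^ 2 * D ≤ (c / 2) * (n : ℝ) ^ 2 := by
      have hDn : 0 ≤ D := by
        rw [hDdef]
        unfold B
        refine Finset.sum_nonneg fun u _ => Finset.sum_nonneg fun v _ => ?_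
        simp only [hone]
        have := h0 u v
        linarith
      calc β ^ 2 * D ≤ (1 / 4) * D := by
            apply mul_le_mul_of_nonneg_right _ hDn
            nlinarith
        _ ≤ (1 / 4) * (2 * c * (n : ℝ) ^ 2) := by
            apply mul_le_mul_of_nonneg_left hD (by norm_num)
        _ = (c / 2) * (n : ℝ) ^ 2 := by ring
    rw [h4] at hW2
    nlinarith
  -- decompose f
  set μ : ℝ := (∑ v, f v) / n with hμ
  have hμ1 : |μ| ≤ 1 := by
    rw [hμ, abs_div, abs_of_pos hn0, div_le_one hn0]
    calc |∑ v, f v| ≤ ∑ v, |f v| := Finset.abs_sum_le_sum_abs _ _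
      _ ≤ ∑ _v : V, (1 : ℝ) := Finset.sum_le_sum fun v _ => hf v
      _ = n := by simp [hndef]
  set g : V → ℝ := fun v => (f v - μ) / 6 with hg
  have hg0 : ∑ v, g v = 0 := by
    rw [hg, ← Finset.sum_div, Finset.sum_sub_distrib]
    simp only [sum_const, card_univ, nsmul_eq_mul]
    rw [← hndef, hμ]
    field_simp
    simp
  have hg1 : ∀ v, |g v| ≤ 1 / 3 := by
    intro v
    rw [hg]
    simp only
    rw [abs_div, abs_of_pos (by norm_num : (0:ℝ) < 6), div_le_iff₀ (by norm_num : (0:ℝ) < 6)]
    calc |f v - μ| ≤ |f v| + |μ| := abs_sub _ _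
      _ ≤ 1 + 1 := add_le_add (hf v) hμ1
      _ = 1 / 3 * 6 := by norm_num
  have hgs : ∀ t : ℝ, |t| ≤ 1 → - s ^ 2 * (n : ℝ) ^ 2 ≤ t * (2 * β * B A one g) + t ^ 2 * B A g g := by
    intro t ht
    have := main (t • g) (by
      simp only [Pi.smul_apply, smul_eq_mul]
      rw [← Finset.mul_sum, hg0, mul_zero]) (by
      intro v
      simp only [Pi.smul_apply, smul_eq_mul]
      rw [abs_mul]
      calc |t| * |g v| ≤ 1 * (1 / 3) := mul_le_mul ht (hg1 v) (abs_nonneg _) (by norm_num)
        _ = 1 / 3 := by norm_num)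
    rw [B_smul_right, B_smul_left, B_smul_right] at this
    calc - s ^ 2 * (n : ℝ) ^ 2 ≤ 2 * β * (t * B A one g) + t * (t * B A g g) := this
      _ = t * (2 * β * B A one g) + t ^ 2 * B A g g := by ring
  have hQ1 : - s ^ 2 * (n : ℝ) ^ 2 ≤ B A g g := by
    have ha := hgs 1 (by norm_num)
    have hb := hgs (-1) (by norm_num)
    linarith
  have hQ2 : B A g g ≤ (n : ℝ) ^ 2 := by
    have := B_abs_le h0 h1 g g (fun v => (hg1 v).trans (by norm_num))
      (fun v => (hg1 v).trans (by norm_num))
    exact (abs_le.1 this).2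
  have hsa : |s| ≤ 1 := by rw [abs_of_pos hs0]; exact hs1
  have hlin1 : - (2 * s) * (n : ℝ) ^ 2 ≤ 2 * β * B A one g := by
    have ha := hgs s hsa
    have : s * (- (2 * s) * (n : ℝ) ^ 2) ≤ s * (2 * β * B A one g) := by nlinarith
    exact le_of_mul_le_mul_left this hs0
  have hlin2 : 2 * β * B A one g ≤ (2 * s) * (n : ℝ) ^ 2 := by
    have ha := hgs (-s) (by rw [abs_neg]; exact hsa)
    have : s * (2 * β * B A one g) ≤ s * ((2 * s) * (n : ℝ) ^ 2) := by nlinarith
    exact le_of_mul_le_mul_left this hs0
  have hlin : |B A one g| ≤ 3 * s * (n : ℝ) ^ 2 := by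
    have hb : |2 * β * B A one g| ≤ (2 * s) * (n : ℝ) ^ 2 := abs_le.2 ⟨by linarith, hlin2⟩
    rw [abs_mul, abs_of_pos (by linarith : (0:ℝ) < 2 * β)] at hb
    have hx := abs_nonneg (B A one g)
    have : (2 / 3) * |B A one g| ≤ 2 * β * |B A one g| :=
      mul_le_mul_of_nonneg_right (by linarith) hx
    linarith
  have hfe : f = μ • one + (6 : ℝ) • g := by
    funext v
    simp only [Pi.add_apply, Pi.smul_apply, smul_eq_mul, hone, hg]
    ring
  have hBf : B A f f = μ ^ 2 * D + 12 * μ * B A one g + 36 * B A g g := by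
    conv_lhs => rw [hfe]
    simp only [B_add_left, B_add_right, B_smul_left, B_smul_right]
    rw [B_comm hA g one]
    ring
  have hDn : 0 ≤ D := by
    rw [hDdef]
    unfold B
    refine Finset.sum_nonneg fun u _ => Finset.sum_nonneg fun v _ => ?_
    simp only [hone]
    have := h0 u v
    linarith
  have hcross : -(3 * s * (n : ℝ) ^ 2) ≤ μ * B A one g := by
    have : |μ * B A one g| ≤ 1 * (3 * s * (n : ℝ) ^ 2) := by
      rw [abs_mul]
      exact mul_le_mul hμ1 hlin (abs_nonneg _) (by norm_num)
    have := (abs_le.1 this).1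
    linarith
  rw [hBf]
  have hmu := mul_nonneg (sq_nonneg μ) hDn
  have hss : s ^ 2 * (n : ℝ) ^ 2 ≤ s * (n : ℝ) ^ 2 := by
    apply mul_le_mul_of_nonneg_right _ (sq_nonneg _)
    nlinarith
  nlinarith

end Form

section Clique

variable {V : Type} [Fintype V] [DecidableEq V]

/-- adjacency matrix as a real function -/
def adj (G : SimpleGraph V) [DecidableRel G.Adj] (u v : V) : ℝ := if G.Adj u v then 1 else 0

lemma adj_comm (G : SimpleGraph V) [DecidableRel G.Adj] (u v : V) : adj G u v = adj G v u := by
  simp [adj, G.adj_comm]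

lemma adj_self (G : SimpleGraph V) [DecidableRel G.Adj] (u : V) : adj G u u = 0 := by
  simp [adj]

lemma adj_nonneg (G : SimpleGraph V) [DecidableRel G.Adj] (u v : V) : 0 ≤ adj G u v := by
  unfold adj; split_ifs <;> norm_num

lemma adj_le_one (G : SimpleGraph V) [DecidableRel G.Adj] (u v : V) : adj G u v ≤ 1 := by
  unfold adj; split_ifs <;> norm_num

/-- Almost positive semidefinite adjacency forms of positive density force cliques. -/
theorem exists_clique (k : ℕ) : ∀ c : ℝ, 0 < c → ∃ δ : ℝ, 0 < δ ∧
    ∀ (V : Type) [Fintype V] [DecidableEq V] (G : SimpleGraph V) [DecidableRel G.Adj]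
      (S : Finset V), 0 < Fintype.card V →
      (∀ f : V → ℝ, (∀ v, |f v| ≤ 1) → - δ * (Fintype.card V : ℝ) ^ 2 ≤ B (adj G) f f) →
      c * (Fintype.card V : ℝ) ^ 2 ≤ B (adj G) (ind S) (ind S) →
      ∃ s : Finset V, s ⊆ S ∧ G.IsNClique k s := by
  induction k with
  | zero =>
    intro c _
    exact ⟨1, one_pos, fun V _ _ G _ S _ _ _ => ⟨∅, Finset.empty_subset _, by simp⟩⟩
  | succ k ih =>
    intro c hc
    obtain ⟨δ', hδ', H⟩ := ih (c ^ 3 / 2) (by positivity)
    refine ⟨min δ' (c ^ 3 / 2), lt_min hδ' (by positivity), ?_⟩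
    intro V _ _ G _ S hV hP hS
    set n := Fintype.card V with hn
    have hn0 : (0 : ℝ) < n := by exact_mod_cast hV
    -- neighbourhoods inside S
    set N : V → Finset V := fun v => S.filter fun u => G.Adj v u with hN
    set D : ℝ := B (adj G) (ind S) (ind S) with hD
    set t : ℝ := D / (n : ℝ) ^ 2 with ht
    have hDn : D = t * (n : ℝ) ^ 2 := by rw [ht]; field_simp
    have htc : c ≤ t := by
      rw [ht, le_div_iff₀ (by positivity)]
      exact hS
    have ht0 : 0 < t := lt_of_lt_of_le hc htc
    have ht1 : t ≤ 1 := by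
      rw [ht, div_le_one (by positivity)]
      have := B_abs_le (adj_nonneg G) (adj_le_one G) (ind S) (ind S)
        (by intro v; unfold ind; split_ifs <;> norm_num)
        (by intro v; unfold ind; split_ifs <;> norm_num)
      exact (abs_le.1 this).2
    -- the degree function
    set d : V → ℝ := fun u => ∑ v ∈ S, adj G u v with hdd
    have hD1 : D = ∑ u ∈ S, d u := by
      rw [hD]
      simp only [B, ind, hdd]
      rw [← Finset.sum_filter_add_sum_filter_not univ (fun u => u ∈ S)]
      rw [Finset.sum_eq_zero (s := univ.filter fun u => ¬ u ∈ S)]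
      · rw [add_zero]
        have : univ.filter (fun u => u ∈ S) = S := by ext; simp
        rw [this]
        refine Finset.sum_congr rfl fun u hu => ?_
        simp only [hu, if_true, mul_one]
        rw [← Finset.sum_filter_add_sum_filter_not univ (fun u => u ∈ S), this,
          Finset.sum_eq_zero (s := univ.filter fun u => ¬ u ∈ S)]
        · rw [add_zero]
          refine Finset.sum_congr rfl fun v hv => ?_
          simp [hv]
        · intro v hv
          simp [(Finset.mem_filter.1 hv).2]
      · intro u hu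
        simp [(Finset.mem_filter.1 hu).2]
    -- sum over v in S of B(ind N v, ind S)
    have hcross : ∑ v ∈ S, B (adj G) (ind (N v)) (ind S) = ∑ u ∈ S, d u ^ 2 := by
      have h1 : ∀ v, B (adj G) (ind (N v)) (ind S) = ∑ u ∈ S, adj G v u * d u := by
        intro v
        simp only [B, ind, hN, hdd]
        rw [← Finset.sum_filter_add_sum_filter_not univ (fun u => u ∈ S)]
        have : univ.filter (fun u => u ∈ S) = S := by ext; simp
        rw [Finset.sum_eq_zero (s := univ.filter fun u => ¬ u ∈ S), add_zero, this]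
        · refine Finset.sum_congr rfl fun u hu => ?_
          by_cases huv : G.Adj v u
          · simp only [Finset.mem_filter, hu, huv, and_self, if_true, mul_one]
            have e1 : adj G v u = 1 := by simp [adj, huv]
            rw [e1, one_mul]
            rw [← Finset.sum_filter_add_sum_filter_not univ (fun u => u ∈ S), this,
              Finset.sum_eq_zero (s := univ.filter fun u => ¬ u ∈ S), add_zero]
            · refine Finset.sum_congr rfl fun w hw => ?_
              simp [hw]
            · intro w hw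
              simp [(Finset.mem_filter.1 hw).2]
          · have e1 : adj G v u = 0 := by simp [adj, huv]
            simp [huv, e1]
        · intro u hu
          simp [(Finset.mem_filter.1 hu).2]
      rw [Finset.sum_congr rfl fun v _ => h1 v, Finset.sum_comm]
      refine Finset.sum_congr rfl fun u _ => ?_
      rw [← Finset.sum_mul, sq]
      congr 1
      rw [hdd]
      exact Finset.sum_congr rfl fun v _ => adj_comm G v u
    have hCS : D ^ 2 ≤ n * ∑ u ∈ S, d u ^ 2 := by
      rw [hD1]
      calc (∑ u ∈ S, d u) ^ 2 ≤ (S.card : ℝ) * ∑ u ∈ S, d u ^ 2 := sq_sum_le_card_mul_sum_sq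
        _ ≤ n * ∑ u ∈ S, d u ^ 2 := by
          apply mul_le_mul_of_nonneg_right _ (Finset.sum_nonneg fun u _ => sq_nonneg _)
          exact_mod_cast Finset.card_le_univ S
    -- apply the almost psd property
    have hpt : ∀ v ∈ S, - (c ^ 3 / 2) * (n : ℝ) ^ 2 + 2 * t * B (adj G) (ind (N v)) (ind S) - t ^ 2 * D ≤
        B (adj G) (ind (N v)) (ind (N v)) := by
      intro v _
      have h1 := hP (ind (N v) + (-t) • ind S) (by
        intro u
        simp only [Pi.add_apply, Pi.smul_apply, smul_eq_mul, ind, hN, Finset.mem_filter]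
        rw [abs_le]
        by_cases hu : u ∈ S <;> by_cases hv : G.Adj v u <;> simp [hu, hv] <;> constructor <;> linarith)
      rw [B_add_left, B_add_right, B_add_right, B_smul_left, B_smul_right, B_smul_left, B_smul_right,
        B_comm (adj_comm G) (ind S) (ind (N v)), ← hD] at h1
      have h2 : - (c ^ 3 / 2) * (n : ℝ) ^ 2 ≤ - (min δ' (c ^ 3 / 2)) * (n : ℝ) ^ 2 := by
        apply mul_le_mul_of_nonneg_right _ (sq_nonneg _)
        have := min_le_right δ' (c ^ 3 / 2)
        linarith
      linarith
    have hsumle := Finset.sum_le_sum hpt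
    rw [Finset.sum_sub_distrib, Finset.sum_add_distrib, ← Finset.mul_sum (f := fun v =>
      B (adj G) (ind (N v)) (ind S)), hcross] at hsumle
    simp only [sum_const, nsmul_eq_mul] at hsumle
    have hSn : (S.card : ℝ) ≤ n := by exact_mod_cast Finset.card_le_univ S
    -- conclude existence
    have hex : ∃ v ∈ S, (c ^ 3 / 2) * (n : ℝ) ^ 2 ≤ B (adj G) (ind (N v)) (ind (N v)) := by
      by_contra hcon
      push Not at hcon
      have hlt : ∑ v ∈ S, B (adj G) (ind (N v)) (ind (N v)) ≤ S.card * ((c ^ 3 / 2) * (n : ℝ) ^ 2) := by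
        calc ∑ v ∈ S, B (adj G) (ind (N v)) (ind (N v)) ≤ ∑ _v ∈ S, (c ^ 3 / 2) * (n : ℝ) ^ 2 :=
              Finset.sum_le_sum fun v hv => (hcon v hv).le
          _ = S.card * ((c ^ 3 / 2) * (n : ℝ) ^ 2) := by simp
      -- strictness: S nonempty
      have hSne : S.Nonempty := by
        by_contra hemp
        rw [Finset.not_nonempty_iff_eq_empty] at hemp
        rw [hD1, hemp] at hDn
        simp at hDn
        rcases hDn with h | h
        · exact absurd h (ne_of_gt ht0)
        · exact absurd h (ne_of_gt hV)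
      have hlt' : ∑ v ∈ S, B (adj G) (ind (N v)) (ind (N v)) < S.card * ((c ^ 3 / 2) * (n : ℝ) ^ 2) := by
        calc ∑ v ∈ S, B (adj G) (ind (N v)) (ind (N v)) < ∑ _v ∈ S, (c ^ 3 / 2) * (n : ℝ) ^ 2 :=
              Finset.sum_lt_sum_of_nonempty hSne fun v hv => hcon v hv
          _ = S.card * ((c ^ 3 / 2) * (n : ℝ) ^ 2) := by simp
      set X := ∑ u ∈ S, d u ^ 2 with hX
      have hX2 : t ^ 2 * (n : ℝ) ^ 3 ≤ X := by
        rw [hDn] at hCS
        have : (n : ℝ) * (t ^ 2 * (n : ℝ) ^ 3) ≤ n * X := by nlinarith
        exact le_of_mul_le_mul_left this hn0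
      have hA1 : (S.card : ℝ) * (t ^ 2 * D) ≤ n * (t ^ 3 * (n : ℝ) ^ 2) := by
        rw [hDn]
        have : t ^ 2 * (t * (n : ℝ) ^ 2) = t ^ 3 * (n : ℝ) ^ 2 := by ring
        rw [this]
        exact mul_le_mul_of_nonneg_right hSn (by positivity)
      have hA2 : (S.card : ℝ) * (c ^ 3 / 2 * (n : ℝ) ^ 2) ≤ n * (c ^ 3 / 2 * (n : ℝ) ^ 2) :=
        mul_le_mul_of_nonneg_right hSn (by positivity)
      have hA3 : 2 * t * (t ^ 2 * (n : ℝ) ^ 3) ≤ 2 * t * X :=
        mul_le_mul_of_nonneg_left hX2 (by positivity)
      have hct : c ^ 3 ≤ t ^ 3 := pow_le_pow_left₀ hc.le htc 3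
      have hn3 : (0 : ℝ) < (n : ℝ) ^ 3 := by positivity
      have hA4 : c ^ 3 * (n : ℝ) ^ 3 ≤ t ^ 3 * (n : ℝ) ^ 3 :=
        mul_le_mul_of_nonneg_right hct hn3.le
      nlinarith
    obtain ⟨v, hvS, hv⟩ := hex
    obtain ⟨s, hsN, hs⟩ := H V G (N v) hV (by
      intro f hf
      refine le_trans ?_ (hP f hf)
      apply mul_le_mul_of_nonneg_right _ (sq_nonneg _)
      have := min_le_left δ' (c ^ 3 / 2)
      linarith) hv
    refine ⟨insert v s, ?_, ?_⟩
    · intro x hx
      rcases Finset.mem_insert.1 hx with rfl | hx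
      · exact hvS
      · exact (Finset.mem_filter.1 (hsN hx)).1
    · apply hs.insert
      intro b hb
      exact (Finset.mem_filter.1 (hsN hb)).2

end Clique

end Pool.Agent.K4H61.Halves
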