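import Mathlib

set_option autoImplicit false

namespace Pool.Agent.K4H61.PM

theorem perm_norm {n : ℕ} (q : ENNReal) [Fact (1 ≤ q)] (σ : Equiv.Perm (Fin n)) (x : Fin n → ℝ) :
    ‖(WithLp.toLp q (x ∘ σ) : PiLp q fun _ : Fin n => ℝ)‖ =
      ‖(WithLp.toLp q x : PiLp q fun _ : Fin n => ℝ)‖ := by
  have h := (LinearIsometryEquiv.piLpCongrLeft q ℝ ℝ σ.symm).norm_map
    (WithLp.toLp q x : PiLp q fun _ : Fin n => ℝ)
  rw [← h]
  congr 1

theorem ds_contract {n : ℕ} (q : ENNReal) [Fact (1 ≤ q)] (W : Matrix (Fin n) (Fin n) ℝ)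
    (hW : W ∈ doublyStochastic ℝ (Fin n)) (x : Fin n → ℝ) :
    ‖(WithLp.toLp q (W.mulVec x) : PiLp q fun _ : Fin n => ℝ)‖ ≤
      ‖(WithLp.toLp q x : PiLp q fun _ : Fin n => ℝ)‖ := by
  have hW' : W ∈ convexHull ℝ {M : Matrix (Fin n) (Fin n) ℝ | ∃ σ : Equiv.Perm (Fin n),
      σ.permMatrix ℝ = M} := by
    have h : W ∈ (doublyStochastic ℝ (Fin n) : Set (Matrix (Fin n) (Fin n) ℝ)) := hW
    rw [doublyStochastic_eq_convexHull_permMatrix] at h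
    exact h
  have hsub : convexHull ℝ {M : Matrix (Fin n) (Fin n) ℝ | ∃ σ : Equiv.Perm (Fin n),
      σ.permMatrix ℝ = M} ⊆ {M | ‖(WithLp.toLp q (M.mulVec x) : PiLp q fun _ : Fin n => ℝ)‖ ≤
        ‖(WithLp.toLp q x : PiLp q fun _ : Fin n => ℝ)‖} := by
    apply convexHull_min
    · rintro _ ⟨σ, rfl⟩
      show ‖(WithLp.toLp q ((σ.permMatrix ℝ).mulVec x) : PiLp q fun _ : Fin n => ℝ)‖ ≤ _
      rw [Matrix.permMatrix_mulVec, perm_norm]
    · intro M1 h1 M2 h2 a b ha hb hab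
      show ‖(WithLp.toLp q ((a • M1 + b • M2).mulVec x) : PiLp q fun _ : Fin n => ℝ)‖ ≤ _
      rw [Matrix.add_mulVec, Matrix.smul_mulVec, Matrix.smul_mulVec, WithLp.toLp_add,
        WithLp.toLp_smul, WithLp.toLp_smul]
      refine (norm_add_le _ _).trans ?_
      rw [norm_smul, norm_smul, Real.norm_of_nonneg ha, Real.norm_of_nonneg hb]
      have h1' : ‖(WithLp.toLp q (M1.mulVec x) : PiLp q fun _ : Fin n => ℝ)‖ ≤
        ‖(WithLp.toLp q x : PiLp q fun _ : Fin n => ℝ)‖ := h1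
      have h2' : ‖(WithLp.toLp q (M2.mulVec x) : PiLp q fun _ : Fin n => ℝ)‖ ≤
        ‖(WithLp.toLp q x : PiLp q fun _ : Fin n => ℝ)‖ := h2
      calc a * ‖(WithLp.toLp q (M1.mulVec x) : PiLp q fun _ : Fin n => ℝ)‖ +
          b * ‖(WithLp.toLp q (M2.mulVec x) : PiLp q fun _ : Fin n => ℝ)‖
          ≤ a * ‖(WithLp.toLp q x : PiLp q fun _ : Fin n => ℝ)‖ +
            b * ‖(WithLp.toLp q x : PiLp q fun _ : Fin n => ℝ)‖ :=
            add_le_add (mul_le_mul_of_nonneg_left h1' ha) (mul_le_mul_of_nonneg_left h2' hb)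
        _ = ‖(WithLp.toLp q x : PiLp q fun _ : Fin n => ℝ)‖ := by rw [← add_mul, hab, one_mul]
  exact hsub hW'

end Pool.Agent.K4H61.PM
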