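import Mathlib

set_option autoImplicit false

namespace Pool.Agent.K4H61.PMsv

theorem norm_of_multiset {n : ℕ} (q : ENNReal) [Fact (1 ≤ q)] (x y : Fin n → ℝ)
    (h : Multiset.map x (Finset.univ : Finset (Fin n)).val =
      Multiset.map y (Finset.univ : Finset (Fin n)).val) :
    ‖(WithLp.toLp q x : PiLp q fun _ : Fin n => ℝ)‖ =
      ‖(WithLp.toLp q y : PiLp q fun _ : Fin n => ℝ)‖ := by
  rcases q.dichotomy with (rfl | hq)
  · rw [PiLp.norm_eq_ciSup, PiLp.norm_eq_ciSup]
    have hr : Set.range x = Set.range y := by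
      ext a
      have := congrArg (fun s => a ∈ s) h
      simpa using this
    have e1 : ∀ z : Fin n → ℝ, (⨆ i, ‖z i‖) = sSup (norm '' Set.range z) := by
      intro z
      rw [← Set.range_comp]
      rfl
    show (⨆ i, ‖x i‖) = ⨆ i, ‖y i‖
    rw [e1, e1, hr]
  · have h0 : 0 < q.toReal := by linarith
    rw [PiLp.norm_eq_sum h0, PiLp.norm_eq_sum h0]
    have e1 : ∀ z : Fin n → ℝ, ∑ i, ‖z i‖ ^ q.toReal =
        (Multiset.map (fun a : ℝ => ‖a‖ ^ q.toReal)
          (Multiset.map z (Finset.univ : Finset (Fin n)).val)).sum := by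
      intro z
      rw [Multiset.map_map]
      rfl
    show (∑ i, ‖x i‖ ^ q.toReal) ^ (1 / q.toReal) = (∑ i, ‖y i‖ ^ q.toReal) ^ (1 / q.toReal)
    rw [e1, e1, h]

theorem abs_norm {n : ℕ} (q : ENNReal) [Fact (1 ≤ q)] (x : Fin n → ℝ) :
    ‖(WithLp.toLp q (fun i => |x i|) : PiLp q fun _ : Fin n => ℝ)‖ =
      ‖(WithLp.toLp q x : PiLp q fun _ : Fin n => ℝ)‖ := by
  rcases q.dichotomy with (rfl | h)
  · simp [PiLp.norm_eq_ciSup]
  · have h0 : 0 < q.toReal := by linarith
    rw [PiLp.norm_eq_sum h0, PiLp.norm_eq_sum h0]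
    simp

theorem schatten_herm {n : ℕ} (q : ENNReal) [Fact (1 ≤ q)] (A : Matrix (Fin n) (Fin n) ℂ)
    (hA : A.IsHermitian) :
    ‖(WithLp.toLp q (fun i =>
        Real.sqrt ((Matrix.isHermitian_conjTranspose_mul_self A).eigenvalues i)) :
        PiLp q fun _ : Fin n => ℝ)‖ =
      ‖(WithLp.toLp q hA.eigenvalues : PiLp q fun _ : Fin n => ℝ)‖ := by
  have hB : cfc (fun x : ℝ => x ^ 2) A = A.conjTranspose * A := by
    have e := cfc_pow_id (R := ℝ) A 2 (ha := hA)
    rw [hA.eq, ← sq]
    exact e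
  have h2 := hA.charpoly_cfc_eq (fun x : ℝ => x ^ 2)
  rw [hB] at h2
  have h1 := (Matrix.isHermitian_conjTranspose_mul_self A).roots_charpoly_eq_eigenvalues
  rw [h2] at h1
  have h3 : (∏ i, (Polynomial.X - Polynomial.C (((hA.eigenvalues i) ^ 2 : ℝ) : ℂ))).roots =
      Multiset.map (fun i => (((hA.eigenvalues i) ^ 2 : ℝ) : ℂ))
        (Finset.univ : Finset (Fin n)).val := by
    have e : (∏ i, (Polynomial.X - Polynomial.C (((hA.eigenvalues i) ^ 2 : ℝ) : ℂ))) =
        (Multiset.map (fun a : ℂ => Polynomial.X - Polynomial.C a)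
          (Multiset.map (fun i => (((hA.eigenvalues i) ^ 2 : ℝ) : ℂ))
            (Finset.univ : Finset (Fin n)).val)).prod := by
      rw [Multiset.map_map]
      rfl
    rw [e, Polynomial.roots_multiset_prod_X_sub_C]
  have h4 : Multiset.map (fun i => (((hA.eigenvalues i) ^ 2 : ℝ) : ℂ))
        (Finset.univ : Finset (Fin n)).val =
      Multiset.map (RCLike.ofReal ∘ (Matrix.isHermitian_conjTranspose_mul_self A).eigenvalues)
        (Finset.univ : Finset (Fin n)).val := h3.symm.trans h1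
  have h5 : Multiset.map (fun i => (hA.eigenvalues i) ^ 2) (Finset.univ : Finset (Fin n)).val =
      Multiset.map (Matrix.isHermitian_conjTranspose_mul_self A).eigenvalues
        (Finset.univ : Finset (Fin n)).val := by
    have h6 := congrArg (Multiset.map Complex.re) h4
    rw [Multiset.map_map, Multiset.map_map] at h6
    have e1 : (Complex.re ∘ fun i => (((hA.eigenvalues i) ^ 2 : ℝ) : ℂ)) =
        fun i => (hA.eigenvalues i) ^ 2 := by
      funext i; exact Complex.ofReal_re _
    have e2 : (Complex.re ∘ (RCLike.ofReal ∘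
        (Matrix.isHermitian_conjTranspose_mul_self A).eigenvalues : Fin n → ℂ)) =
        (Matrix.isHermitian_conjTranspose_mul_self A).eigenvalues := by
      funext i; exact Complex.ofReal_re _
    rw [e1, e2] at h6
    exact h6
  have h7 := congrArg (Multiset.map Real.sqrt) h5
  rw [Multiset.map_map, Multiset.map_map] at h7
  rw [← abs_norm q hA.eigenvalues]
  apply norm_of_multiset
  have h8 : (Real.sqrt ∘ fun i => hA.eigenvalues i ^ 2) = fun i => |hA.eigenvalues i| := by
    funext i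
    exact Real.sqrt_sq_eq_abs _
  rw [h8] at h7
  exact h7.symm

end Pool.Agent.K4H61.PMsv
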