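import Pool.Agent.H902R3.ZA.Defs

/-!
# Zonoids given as Hausdorff limits of sums of centred segments
-/

set_option autoImplicit false

open scoped Pointwise

namespace Pool.Agent.K4H61.ZonoidTransfer

open Pool.Agent.H172R2.ZS (E Zon)

theorem segment_neg_mem {n : ℕ} (v x : E n) :
    x ∈ segment ℝ (-v) v ↔ ∃ t : ℝ, t ∈ Set.Icc (-1 : ℝ) 1 ∧ x = t • v := by
  constructor
  · rintro ⟨a, b, ha, hb, hab, rfl⟩
    refine ⟨b - a, ⟨by linarith, by linarith⟩, ?_⟩
    rw [smul_neg, sub_smul]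
    abel
  · rintro ⟨t, ⟨h1, h2⟩, rfl⟩
    refine ⟨(1 - t) / 2, (1 + t) / 2, by linarith, by linarith, by ring, ?_⟩
    rw [smul_neg, ← sub_eq_neg_add, ← sub_smul]
    congr 1
    ring

theorem sum_segment_eq {n m : ℕ} (v : Fin m → E n) :
    ∑ i, segment ℝ (-v i) (v i) = Zon v := by
  ext x
  rw [Set.mem_fintype_sum]
  constructor
  · rintro ⟨g, hg, rfl⟩
    choose t ht ht' using fun i => (segment_neg_mem (v i) (g i)).mp (hg i)
    exact ⟨t, ht, Finset.sum_congr rfl fun i _ => ht' i⟩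
  · rintro ⟨t, ht, rfl⟩
    exact ⟨fun i => t i • v i, fun i => (segment_neg_mem _ _).mpr ⟨t i, ht i, rfl⟩, rfl⟩

theorem zon_zero_mem {n m : ℕ} (v : Fin m → E n) : (0 : E n) ∈ Zon v :=
  ⟨fun _ => 0, fun j => by simp, by simp⟩

theorem zon_neg_mem {n m : ℕ} (v : Fin m → E n) (x : E n) (hx : x ∈ Zon v) : -x ∈ Zon v := by
  obtain ⟨t, ht, rfl⟩ := hx
  refine ⟨fun j => - t j, fun j => ?_, ?_⟩
  · have := ht j
    rw [Set.mem_Icc] at this ⊢
    constructor <;> linarith [this.1, this.2]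
  · rw [← Finset.sum_neg_distrib]
    exact Finset.sum_congr rfl fun j _ => by rw [neg_smul]

theorem zon_convex {n m : ℕ} (v : Fin m → E n) : Convex ℝ (Zon v) := by
  rintro x ⟨s, hs, rfl⟩ y ⟨t, ht, rfl⟩ a b ha hb hab
  refine ⟨fun j => a * s j + b * t j, fun j => ?_, ?_⟩
  · have h1 := hs j
    have h2 := ht j
    rw [Set.mem_Icc] at h1 h2 ⊢
    constructor <;> nlinarith [h1.1, h1.2, h2.1, h2.2]
  · rw [Finset.smul_sum, Finset.smul_sum, ← Finset.sum_add_distrib]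
    exact Finset.sum_congr rfl fun j _ => by rw [smul_smul, smul_smul, add_smul]

theorem zon_bounded {n m : ℕ} (v : Fin m → E n) : Bornology.IsBounded (Zon v) := by
  refine (Metric.isBounded_closedBall (x := (0 : E n)) (r := ∑ j, ‖v j‖)).subset ?_
  rintro x ⟨t, ht, rfl⟩
  rw [mem_closedBall_zero_iff]
  refine (norm_sum_le _ _).trans (Finset.sum_le_sum fun j _ => ?_)
  rw [norm_smul]
  have h := ht j
  rw [Set.mem_Icc] at h
  have h1 : ‖t j‖ ≤ 1 := by
    rw [Real.norm_eq_abs, abs_le]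
    exact h
  nlinarith [norm_nonneg (v j)]

theorem isZonoid_of {n : ℕ} {K : Set (E n)} (hK : IsCompact K) (hint : (interior K).Nonempty)
    (hlim : ∀ δ : ℝ, 0 < δ → ∃ m : ℕ, ∃ v : Fin m → E n,
      Metric.hausdorffDist K (∑ i, segment ℝ (-v i) (v i)) < δ) :
    Pool.Agent.H902R3.ZA.IsZonoid K := by
  have hne : K.Nonempty := hint.mono interior_subset
  have key : ∀ δ : ℝ, 0 < δ → ∃ m : ℕ, ∃ v : Fin m → E n,
      (∀ x ∈ K, ∃ z ∈ Zon v, dist x z < δ) ∧ (∀ z ∈ Zon v, ∃ x ∈ K, dist x z < δ) := by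
    intro δ hδ
    obtain ⟨m, v, hv⟩ := hlim δ hδ
    rw [sum_segment_eq] at hv
    have hfin : Metric.hausdorffEDist K (Zon v) ≠ ⊤ :=
      Metric.hausdorffEDist_ne_top_of_nonempty_of_bounded hne ⟨0, zon_zero_mem v⟩
        hK.isBounded (zon_bounded v)
    exact ⟨m, v, fun x hx => Metric.exists_dist_lt_of_hausdorffDist_lt hx hv hfin,
      fun z hz => Metric.exists_dist_lt_of_hausdorffDist_lt' hz hv hfin⟩
  have hclosed : ∀ x : E n, (∀ δ : ℝ, 0 < δ → ∃ y ∈ K, dist x y < δ) → x ∈ K := by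
    intro x hx
    have : x ∈ closure K := Metric.mem_closure_iff.mpr fun δ hδ => by
      obtain ⟨y, hy, hxy⟩ := hx δ hδ
      exact ⟨y, hy, hxy⟩
    rwa [hK.isClosed.closure_eq] at this
  refine ⟨?_, hK, hint, ?_, ?_⟩
  · intro x hx y hy a b ha hb hab
    apply hclosed
    intro δ hδ
    obtain ⟨m, v, h1, h2⟩ := key (δ / 2) (by linarith)
    obtain ⟨z, hz, hxz⟩ := h1 x hx
    obtain ⟨w, hw, hyw⟩ := h1 y hy
    obtain ⟨p, hp, hpz⟩ := h2 _ (zon_convex v hz hw ha hb hab)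
    refine ⟨p, hp, ?_⟩
    have e1 : dist (a • x + b • y) (a • z + b • w) ≤ a * dist x z + b * dist y w := by
      refine (dist_add_add_le _ _ _ _).trans ?_
      rw [dist_smul₀, dist_smul₀, Real.norm_of_nonneg ha, Real.norm_of_nonneg hb]
    have e2 : a * dist x z + b * dist y w ≤ δ / 2 := by
      have h3 : a * dist x z ≤ a * (δ / 2) := mul_le_mul_of_nonneg_left hxz.le ha
      have h4 : b * dist y w ≤ b * (δ / 2) := mul_le_mul_of_nonneg_left hyw.le hb
      calc a * dist x z + b * dist y w ≤ a * (δ / 2) + b * (δ / 2) := add_le_add h3 h4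
        _ = (a + b) * (δ / 2) := by ring
        _ = δ / 2 := by rw [hab, one_mul]
    have e3 := dist_triangle (a • x + b • y) (a • z + b • w) p
    rw [dist_comm _ p] at e3
    rw [dist_comm p] at e3
    rw [dist_comm] at hpz
    linarith
  · intro x hx
    apply hclosed
    intro δ hδ
    obtain ⟨m, v, h1, h2⟩ := key (δ / 2) (by linarith)
    obtain ⟨z, hz, hxz⟩ := h1 x hx
    obtain ⟨p, hp, hpz⟩ := h2 _ (zon_neg_mem v z hz)
    refine ⟨p, hp, ?_⟩
    have e1 : dist (-x) (-z) = dist x z := dist_neg_neg x z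
    have e3 := dist_triangle (-x) (-z) p
    rw [dist_comm] at hpz
    linarith
  · intro δ hδ
    obtain ⟨m, v, hv⟩ := hlim δ hδ
    rw [sum_segment_eq] at hv
    exact ⟨m, Zon v, ⟨0, v, by simp⟩, hv⟩

end Pool.Agent.K4H61.ZonoidTransfer
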